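import Pool.Agent.Helper99_GRA.Five

/-!
The terms of the octopus inequality for at most five letters.
-/

set_option autoImplicit false

namespace Pool.Agent.GRA.S.H99

open Equiv

/-- `1 + δ_ij` -/
def kap {N : ℕ} (i j : Fin N) : ℤ := if i = j then 2 else 1

/-- `s_li + s_lj - (1 - δ_ij) s_ij` -/
def Rl {N : ℕ} (l i j : Fin N) : List (Perm (Fin N) × ℤ) :=
  [(swap l i, 1), (swap l j, 1), (swap i j, if i = j then 0 else -1)]

/-- one pairing -/
def XL {N : ℕ} (l i j k m : Fin N) : List (Perm (Fin N) × ℤ) :=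
  (1, kap i j * kap k m) :: sc (-1) (pr (Rl l i j) (Rl l k m))

/-- the sum over the three pairings -/
def EL {N : ℕ} (l i j k m : Fin N) : List (Perm (Fin N) × ℤ) :=
  XL l i j k m ++ (XL l i k j m ++ XL l i m j k)

variable {E : Type} [NormedAddCommGroup E] [InnerProductSpace ℂ E]

/-- checks a formal sum -/
def chk {N : ℕ} (L : List (Perm (Fin N) × ℤ)) : Bool :=
  (canon (L.map fun a => (code a.1, a.2))).all (fun x => x.2 == 0)

theorem pos_of {N : ℕ} (r : Perm (Fin N) →* (E →ₗ[ℂ] E)) (hr : ∀ s x, ‖r s x‖ = ‖x‖) (f : E)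
    (c : ℕ) (hc : 0 < c) (A L : List (Perm (Fin N) × ℤ))
    (h : chk (sc c (A ++ iv A) ++ sc (-2) (pr L L)) = true) : 0 ≤ ev r f A := by
  have h1 := ev_zero r f _ h
  rw [ev_append, ev_sc, ev_sc, ev_append, ev_iv r hr] at h1
  have h2 := ev_sq r hr f L
  push_cast at h1
  have h3 : (0 : ℝ) < c := by exact_mod_cast hc
  nlinarith

/-- the 5-letter element -/
def L5 : List (Perm (Fin 5) × ℤ) :=
  (1, 3) ::
  ((([1, 2, 3, 4] : List (Fin 5)).flatMap fun a =>
    (([1, 2, 3, 4] : List (Fin 5)).filter (fun b => a ≠ b)).map fun b =>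
      (swap 0 a * swap a b, (-1 : ℤ))) ++
  ([(1, 2, 3), (1, 2, 4), (1, 3, 4), (2, 1, 3), (2, 1, 4), (2, 3, 4), (3, 1, 2), (3, 1, 4),
    (3, 2, 4), (4, 1, 2), (4, 1, 3), (4, 2, 3)] : List (Fin 5 × Fin 5 × Fin 5)).map
      (fun t => (swap 0 t.1 * swap t.2.1 t.2.2, (1 : ℤ))) ++
  [(swap 1 2 * swap 3 4, -1), (swap 1 3 * swap 2 4, -1), (swap 1 4 * swap 2 3, -1)])

/-- the 4-letter element -/
def L4 : List (Perm (Fin 4) × ℤ) :=
  ([1, swap 0 1 * swap 2 3, swap 0 2 * swap 1 3, swap 0 3 * swap 1 2] :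
    List (Perm (Fin 4))).flatMap fun v => [(v, (1 : ℤ)), (v * (swap 0 1 * swap 1 2), -1)]

/-- codes of the sum over the three pairings -/
def ca : List (ℕ × ℤ) :=
  [(18056, 1), (17027, -1), (5764, -1), (14465, 1), (17419, -1), (9740, -1), (14346, 1),
   (16467, 1), (1620, 1), (14416, -1), (18056, 1), (17986, -1), (5764, -1), (9985, 1),
   (16586, -1), (12428, -1), (8459, 1), (16922, 1), (668, 1), (8984, -1), (18056, 1),
   (17986, -1), (17027, -1), (17601, 1), (1802, -1), (2187, -1), (1228, 1), (5666, 1),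
   (4259, 1), (5344, -1)]

/-- codes of the adjoint -/
def cb : List (ℕ × ℤ) :=
  [(18056, 1), (16537, -1), (1697, -1), (14465, 1), (16586, -1), (1802, -1), (14346, 1),
   (16467, 1), (1620, 1), (14416, -1), (18056, 1), (17937, -1), (1697, -1), (9985, 1),
   (17419, -1), (2187, -1), (8459, 1), (16922, 1), (668, 1), (8984, -1), (18056, 1),
   (17937, -1), (16537, -1), (17601, 1), (9740, -1), (12428, -1), (1228, 1), (5666, 1),
   (4259, 1), (5344, -1)]

/-- codes of the 5-letter element -/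
def cc : List (ℕ × ℤ) :=
  [(18056, 3), (17937, -1), (16537, -1), (1697, -1), (17986, -1), (16586, -1), (1802, -1),
   (17027, -1), (17419, -1), (2187, -1), (5764, -1), (9740, -1), (12428, -1), (17601, 1),
   (9985, 1), (14465, 1), (16922, 1), (5666, 1), (14346, 1), (16467, 1), (4259, 1),
   (8459, 1), (1620, 1), (668, 1), (1228, 1), (14416, -1), (8984, -1), (5344, -1)]

theorem hca : cl (EL 0 1 2 3 4) = ca := by decide +kernel

theorem hcb : cl (iv (EL 0 1 2 3 4)) = cb := by decide +kernel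

theorem hcc : cl L5 = cc := by decide +kernel

theorem hchk : (canon (scc (12 : ℕ) (ca ++ cb) ++ scc (-2) (prc cc cc))).all
    (fun x => x.2 == 0) = true := by decide +kernel

theorem five (r : Perm (Fin 5) →* (E →ₗ[ℂ] E)) (hr : ∀ s x, ‖r s x‖ = ‖x‖) (f : E) :
    0 ≤ ev r f (EL 0 1 2 3 4) :=
  pos_of5 r hr f 12 (by norm_num) _ L5 ca cb cc hca hcb hcc hchk

theorem four (r : Perm (Fin 4) →* (E →ₗ[ℂ] E)) (hr : ∀ s x, ‖r s x‖ = ‖x‖) (f : E) :
    0 ≤ ev r f (EL 0 1 1 2 3) :=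
  pos_of r hr f 4 (by norm_num) _ L4 (by decide +kernel)

theorem three (r : Perm (Fin 3) →* (E →ₗ[ℂ] E)) (hr : ∀ s x, ‖r s x‖ = ‖x‖) (f : E) :
    0 ≤ ev r f (EL 0 1 1 1 2) :=
  pos_of r hr f 1 (by norm_num) _ [] (by decide +kernel)

theorem three2 (r : Perm (Fin 3) →* (E →ₗ[ℂ] E)) (hr : ∀ s x, ‖r s x‖ = ‖x‖) (f : E) :
    0 ≤ ev r f (EL 0 1 1 2 2) :=
  pos_of r hr f 1 (by norm_num) _ [] (by decide +kernel)

theorem two (r : Perm (Fin 2) →* (E →ₗ[ℂ] E)) (hr : ∀ s x, ‖r s x‖ = ‖x‖) (f : E) :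
    0 ≤ ev r f (EL 0 1 1 1 1) :=
  pos_of r hr f 1 (by norm_num) _ [] (by decide +kernel)

end Pool.Agent.GRA.S.H99
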