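import Pool.Agent.GRA.DefsS
import Pool.Agent.Helper99_GRA.Small

/-!
The octopus inequality (squad GRA, Block S).
-/

set_option autoImplicit false

namespace Pool.Agent.GRA.S.H99

open Equiv Finset

section embed
variable {N n : ℕ} {E : Type} [NormedAddCommGroup E] [InnerProductSpace ℂ E]

/-- extension of permutations along an embedding -/
noncomputable def th (u : Fin N ↪ Fin n) : Perm (Fin N) →* Perm (Fin n) :=
  Perm.viaEmbeddingHom u

theorem th_swap (u : Fin N ↪ Fin n) (a b : Fin N) : th u (swap a b) = swap (u a) (u b) := by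
  unfold th
  rw [Perm.viaEmbeddingHom_apply]
  apply Equiv.ext
  intro x
  by_cases hx : x ∈ Set.range u
  · obtain ⟨y, rfl⟩ := hx
    rw [Perm.viaEmbedding_apply, u.injective.map_swap]
  · rw [Perm.viaEmbedding_apply_of_notMem _ _ _ hx, swap_apply_of_ne_of_ne]
    · rintro rfl
      exact hx ⟨a, rfl⟩
    · rintro rfl
      exact hx ⟨b, rfl⟩

/-- transport of formal sums -/
noncomputable def mp (u : Fin N ↪ Fin n) (L : List (Perm (Fin N) × ℤ)) : List (Perm (Fin n) × ℤ) :=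
  L.map fun a => (th u a.1, a.2)

theorem ev_mp (u : Fin N ↪ Fin n) (p : Perm (Fin n) →* (E →ₗ[ℂ] E)) (f : E)
    (L : List (Perm (Fin N) × ℤ)) : ev (p.comp (th u)) f L = ev p f (mp u L) := by
  unfold ev mp
  rw [List.map_map]
  rfl

theorem mp_append (u : Fin N ↪ Fin n) (A B : List (Perm (Fin N) × ℤ)) :
    mp u (A ++ B) = mp u A ++ mp u B := by
  unfold mp
  rw [List.map_append]

theorem mp_sc (u : Fin N ↪ Fin n) (c : ℤ) (A : List (Perm (Fin N) × ℤ)) :
    mp u (sc c A) = sc c (mp u A) := by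
  unfold mp sc
  rw [List.map_map, List.map_map]
  rfl

theorem mp_pr (u : Fin N ↪ Fin n) (A B : List (Perm (Fin N) × ℤ)) :
    mp u (pr A B) = pr (mp u A) (mp u B) := by
  unfold mp pr
  rw [List.map_flatMap, List.flatMap_map]
  congr 1
  funext a
  rw [List.map_map, List.map_map]
  refine List.map_congr_left fun b _ => ?_
  simp only [Function.comp_apply, map_mul, map_inv]

theorem kap_u (u : Fin N ↪ Fin n) (i j : Fin N) : kap (u i) (u j) = kap i j := by
  unfold kap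
  simp only [u.injective.eq_iff]

theorem mp_Rl (u : Fin N ↪ Fin n) (l i j : Fin N) : mp u (Rl l i j) = Rl (u l) (u i) (u j) := by
  unfold mp Rl
  simp only [List.map_cons, List.map_nil, th_swap, u.injective.eq_iff]

theorem mp_XL (u : Fin N ↪ Fin n) (l i j k m : Fin N) :
    mp u (XL l i j k m) = XL (u l) (u i) (u j) (u k) (u m) := by
  unfold XL
  have h1 : mp u ((1, kap i j * kap k m) :: sc (-1) (pr (Rl l i j) (Rl l k m)))
      = (1, kap i j * kap k m) :: mp u (sc (-1) (pr (Rl l i j) (Rl l k m))) := by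
    unfold mp
    rw [List.map_cons, map_one]
  rw [h1, mp_sc, mp_pr, mp_Rl, mp_Rl, kap_u, kap_u]

theorem mp_EL (u : Fin N ↪ Fin n) (l i j k m : Fin N) :
    mp u (EL l i j k m) = EL (u l) (u i) (u j) (u k) (u m) := by
  unfold EL
  rw [mp_append, mp_append, mp_XL, mp_XL, mp_XL]

theorem comp_norm (u : Fin N ↪ Fin n) (p : Perm (Fin n) →* (E →ₗ[ℂ] E))
    (hp : ∀ s x, ‖p s x‖ = ‖x‖) : ∀ s x, ‖(p.comp (th u)) s x‖ = ‖x‖ := fun _ x => hp _ x

theorem ev_EL (u : Fin N ↪ Fin n) (p : Perm (Fin n) →* (E →ₗ[ℂ] E)) (f : E)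
    (l i j k m : Fin N) (h : 0 ≤ ev (p.comp (th u)) f (EL l i j k m)) :
    0 ≤ ev p f (EL (u l) (u i) (u j) (u k) (u m)) := by
  rw [ev_mp, mp_EL] at h
  exact h

end embed

section main
variable {n : ℕ} {E : Type} [NormedAddCommGroup E] [InnerProductSpace ℂ E]
  (p : Perm (Fin n) →* (E →ₗ[ℂ] E)) (f : E)

/-- the vector `R_ij f` -/
noncomputable def Rv (l i j : Fin n) : E := vec p f (Rl l i j)

theorem Rv_eq (l i j : Fin n) : Rv p f l i j =
    p (swap l i) f + p (swap l j) f - (if i = j then 0 else p (swap i j) f) := by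
  unfold Rv Rl
  rw [vec_cons, vec_cons, vec_cons, vec_nil]
  split_ifs with h
  · push_cast
    simp
  · push_cast
    simp only [one_smul, add_zero, neg_smul]
    abel

theorem Rv_symm (l i j : Fin n) : Rv p f l i j = Rv p f l j i := by
  rw [Rv_eq, Rv_eq, swap_comm i j]
  by_cases h : i = j
  · rw [if_pos h, if_pos h.symm, add_comm]
  · rw [if_neg h, if_neg (fun h' => h h'.symm), add_comm (p (swap l i) f)]

/-- one pairing -/
noncomputable def x (l i j k m : Fin n) : ℝ :=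
  (kap i j : ℝ) * (kap k m : ℝ) * ‖f‖ ^ 2 - (inner ℂ (Rv p f l i j) (Rv p f l k m)).re

/-- the sum over the three pairings -/
noncomputable def e (l i j k m : Fin n) : ℝ :=
  x p f l i j k m + x p f l i k j m + x p f l i m j k

theorem kap_symm {N : ℕ} (i j : Fin N) : kap i j = kap j i := by
  unfold kap
  simp only [eq_comm]

theorem x1 (l i j k m : Fin n) : x p f l i j k m = x p f l j i k m := by
  unfold x
  rw [kap_symm i j, Rv_symm p f l i j]

theorem x2 (l i j k m : Fin n) : x p f l i j k m = x p f l k m i j := by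
  unfold x
  rw [← inner_conj_symm, Complex.conj_re]
  ring

theorem x3 (l i j k m : Fin n) : x p f l i j k m = x p f l i j m k := by
  rw [x2, x1, x2]

theorem e12 (l i j k m : Fin n) : e p f l i j k m = e p f l j i k m := by
  unfold e
  rw [x1 p f l i j, x2 p f l i k, x2 p f l i m]
  ring

theorem e23 (l i j k m : Fin n) : e p f l i j k m = e p f l i k j m := by
  unfold e
  rw [x3 p f l i m j k]
  ring

theorem e34 (l i j k m : Fin n) : e p f l i j k m = e p f l i j m k := by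
  unfold e
  rw [x3 p f l i j k m]
  ring

variable (hp : ∀ s y, ‖p s y‖ = ‖y‖)
include hp

theorem ev_XL (l i j k m : Fin n) : ev p f (XL l i j k m) = x p f l i j k m := by
  unfold XL x
  have h1 : ev p f ((1, kap i j * kap k m) :: sc (-1) (pr (Rl l i j) (Rl l k m)))
      = ((kap i j * kap k m : ℤ) : ℝ) * ph p f 1
        + ev p f (sc (-1) (pr (Rl l i j) (Rl l k m))) := by
    unfold ev
    rw [List.map_cons, List.sum_cons]
  rw [h1, ph_one, ev_sc, ← ev_pr p hp]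
  unfold Rv
  push_cast
  ring

theorem ev_e (l i j k m : Fin n) : ev p f (EL l i j k m) = e p f l i j k m := by
  unfold EL e
  rw [ev_append, ev_append, ev_XL p f hp, ev_XL p f hp, ev_XL p f hp]
  ring

theorem e_all (l i j k m : Fin n) (h1 : l ≠ i) (h2 : l ≠ j) (h3 : l ≠ k) (h4 : l ≠ m)
    (h5 : i ≠ j) (h6 : i ≠ k) (h7 : i ≠ m) (h8 : j ≠ k) (h9 : j ≠ m) (h10 : k ≠ m) :
    0 ≤ e p f l i j k m := by
  have hinj : Function.Injective (![l, i, j, k, m] : Fin 5 → Fin n) := by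
    intro a b hab
    fin_cases a <;> fin_cases b <;> simp_all
  have h := ev_EL ⟨![l, i, j, k, m], hinj⟩ p f 0 1 2 3 4
    (five _ (comp_norm _ p hp) f)
  rw [ev_e p f hp] at h
  exact h

theorem e_four (l i j k : Fin n) (h1 : l ≠ i) (h2 : l ≠ j) (h3 : l ≠ k)
    (h5 : i ≠ j) (h6 : i ≠ k) (h8 : j ≠ k) :
    0 ≤ e p f l i i j k := by
  have hinj : Function.Injective (![l, i, j, k] : Fin 4 → Fin n) := by
    intro a b hab
    fin_cases a <;> fin_cases b <;> simp_all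
  have h := ev_EL ⟨![l, i, j, k], hinj⟩ p f 0 1 1 2 3
    (four _ (comp_norm _ p hp) f)
  rw [ev_e p f hp] at h
  exact h

theorem e_three (l i j : Fin n) (h1 : l ≠ i) (h2 : l ≠ j) (h5 : i ≠ j) :
    0 ≤ e p f l i i i j := by
  have hinj : Function.Injective (![l, i, j] : Fin 3 → Fin n) := by
    intro a b hab
    fin_cases a <;> fin_cases b <;> simp_all
  have h := ev_EL ⟨![l, i, j], hinj⟩ p f 0 1 1 1 2
    (three _ (comp_norm _ p hp) f)
  rw [ev_e p f hp] at h
  exact h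

theorem e_three2 (l i j : Fin n) (h1 : l ≠ i) (h2 : l ≠ j) (h5 : i ≠ j) :
    0 ≤ e p f l i i j j := by
  have hinj : Function.Injective (![l, i, j] : Fin 3 → Fin n) := by
    intro a b hab
    fin_cases a <;> fin_cases b <;> simp_all
  have h := ev_EL ⟨![l, i, j], hinj⟩ p f 0 1 1 2 2
    (three2 _ (comp_norm _ p hp) f)
  rw [ev_e p f hp] at h
  exact h

theorem e_two (l i : Fin n) (h1 : l ≠ i) : 0 ≤ e p f l i i i i := by
  have hinj : Function.Injective (![l, i] : Fin 2 → Fin n) := by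
    intro a b hab
    fin_cases a <;> fin_cases b <;> simp_all
  have h := ev_EL ⟨![l, i], hinj⟩ p f 0 1 1 1 1
    (two _ (comp_norm _ p hp) f)
  rw [ev_e p f hp] at h
  exact h

theorem e_pair (l i k m : Fin n) (h1 : l ≠ i) (h3 : l ≠ k) (h4 : l ≠ m) :
    0 ≤ e p f l i i k m := by
  by_cases hkm : k = m
  · subst hkm
    by_cases hik : i = k
    · subst hik
      exact e_two p f hp l i h1
    · exact e_three2 p f hp l i k h1 h3 hik
  · by_cases hik : i = k
    · subst hik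
      exact e_three p f hp l i m h1 h4 hkm
    · by_cases him : i = m
      · subst him
        rw [e34]
        exact e_three p f hp l i k h1 h3 hik
      · exact e_four p f hp l i k m h1 h3 h4 hik him hkm

theorem e_nonneg (l i j k m : Fin n) (h1 : l ≠ i) (h2 : l ≠ j) (h3 : l ≠ k) (h4 : l ≠ m) :
    0 ≤ e p f l i j k m := by
  by_cases h5 : i = j
  · subst h5
    exact e_pair p f hp l i k m h1 h3 h4
  by_cases h6 : i = k
  · subst h6
    rw [e23]
    exact e_pair p f hp l i j m h1 h2 h4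
  by_cases h7 : i = m
  · subst h7
    rw [e34, e23]
    exact e_pair p f hp l i j k h1 h2 h3
  by_cases h8 : j = k
  · subst h8
    rw [e12, e23]
    exact e_pair p f hp l j i m h2 h1 h4
  by_cases h9 : j = m
  · subst h9
    rw [e12, e34, e23]
    exact e_pair p f hp l j i k h2 h1 h3
  by_cases h10 : k = m
  · subst h10
    rw [e23, e12, e34, e23]
    exact e_pair p f hp l k i j h3 h1 h2
  exact e_all p f hp l i j k m h1 h2 h3 h4 h5 h6 h7 h8 h9 h10

theorem term_eq (l i j : Fin n) :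
    ‖f - p (swap i j) f‖ ^ 2 - ‖f - p (swap l i) f‖ ^ 2 - ‖f - p (swap l j) f‖ ^ 2
      = 2 * ((inner ℂ f (Rv p f l i j)).re - (kap i j : ℝ) * ‖f‖ ^ 2) := by
  have h0 : ∀ g : Perm (Fin n), ‖f - p g f‖ ^ 2 = 2 * ‖f‖ ^ 2 - 2 * ph p f g := by
    intro g
    have h1 := norm_sub_sq (𝕜 := ℂ) f (p g f)
    rw [hp g f] at h1
    rw [h1]
    unfold ph
    change ‖f‖ ^ 2 - 2 * (inner ℂ f (p g f)).re + ‖f‖ ^ 2 = _
    ring
  rw [h0, h0, h0, Rv_eq, inner_sub_right, inner_add_right, Complex.sub_re, Complex.add_re]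
  unfold kap
  split_ifs with h
  · subst h
    rw [swap_self]
    have h2 : ph p f (Equiv.refl (Fin n)) = ‖f‖ ^ 2 := ph_one p f
    rw [h2, inner_zero_right]
    unfold ph
    push_cast
    simp only [Complex.zero_re]
    ring
  · unfold ph
    push_cast
    ring

theorem sum_sq (c : Fin n → ℝ) (hc : ∀ i, 0 ≤ c i) (S : Finset (Fin n)) (l : Fin n)
    (hl : l ∉ S) :
    0 ≤ ∑ i ∈ S, ∑ j ∈ S, ∑ k ∈ S, ∑ m ∈ S, c i * c j * (c k * c m) * x p f l i j k m := by
  have hne : ∀ i ∈ S, l ≠ i := fun i hi h => hl (h ▸ hi)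
  have h0 : 0 ≤ ∑ i ∈ S, ∑ j ∈ S, ∑ k ∈ S, ∑ m ∈ S,
      c i * c j * (c k * c m) * e p f l i j k m := by
    refine Finset.sum_nonneg fun i hi => Finset.sum_nonneg fun j hj =>
      Finset.sum_nonneg fun k hk => Finset.sum_nonneg fun m hm => ?_
    exact mul_nonneg (mul_nonneg (mul_nonneg (hc i) (hc j)) (mul_nonneg (hc k) (hc m)))
      (e_nonneg p f hp l i j k m (hne i hi) (hne j hj) (hne k hk) (hne m hm))
  have h1 : ∑ i ∈ S, ∑ j ∈ S, ∑ k ∈ S, ∑ m ∈ S, c i * c j * (c k * c m) * x p f l i k j m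
      = ∑ i ∈ S, ∑ j ∈ S, ∑ k ∈ S, ∑ m ∈ S, c i * c j * (c k * c m) * x p f l i j k m := by
    refine Finset.sum_congr rfl fun i _ => ?_
    rw [Finset.sum_comm]
    refine Finset.sum_congr rfl fun j _ => Finset.sum_congr rfl fun k _ =>
      Finset.sum_congr rfl fun m _ => ?_
    ring
  have h2 : ∑ i ∈ S, ∑ j ∈ S, ∑ k ∈ S, ∑ m ∈ S, c i * c j * (c k * c m) * x p f l i m j k
      = ∑ i ∈ S, ∑ j ∈ S, ∑ k ∈ S, ∑ m ∈ S, c i * c j * (c k * c m) * x p f l i j k m := by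
    refine Finset.sum_congr rfl fun i _ => ?_
    have h3 : ∀ j ∈ S, ∑ k ∈ S, ∑ m ∈ S, c i * c j * (c k * c m) * x p f l i m j k
        = ∑ m ∈ S, ∑ k ∈ S, c i * c j * (c k * c m) * x p f l i m j k :=
      fun j _ => Finset.sum_comm
    rw [Finset.sum_congr rfl h3, Finset.sum_comm]
    refine Finset.sum_congr rfl fun j _ => Finset.sum_congr rfl fun k _ =>
      Finset.sum_congr rfl fun m _ => ?_
    ring
  have h4 : ∑ i ∈ S, ∑ j ∈ S, ∑ k ∈ S, ∑ m ∈ S, c i * c j * (c k * c m) * e p f l i j k m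
      = ∑ i ∈ S, ∑ j ∈ S, ∑ k ∈ S, ∑ m ∈ S, c i * c j * (c k * c m) * x p f l i j k m
        + ∑ i ∈ S, ∑ j ∈ S, ∑ k ∈ S, ∑ m ∈ S, c i * c j * (c k * c m) * x p f l i k j m
        + ∑ i ∈ S, ∑ j ∈ S, ∑ k ∈ S, ∑ m ∈ S, c i * c j * (c k * c m) * x p f l i m j k := by
    simp only [← Finset.sum_add_distrib]
    refine Finset.sum_congr rfl fun i _ => Finset.sum_congr rfl fun j _ =>
      Finset.sum_congr rfl fun k _ => Finset.sum_congr rfl fun m _ => ?_
    unfold e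
    ring
  rw [h4, h1, h2] at h0
  linarith

theorem norm_sum (c : Fin n → ℝ) (S : Finset (Fin n)) (l : Fin n) :
    ∑ i ∈ S, ∑ j ∈ S, ∑ k ∈ S, ∑ m ∈ S, c i * c j * (c k * c m) * x p f l i j k m
      = (∑ i ∈ S, ∑ j ∈ S, c i * c j * (kap i j : ℝ)) ^ 2 * ‖f‖ ^ 2
        - ‖∑ i ∈ S, ∑ j ∈ S, ((c i * c j : ℝ) : ℂ) • Rv p f l i j‖ ^ 2 := by
  have h1 : ‖∑ i ∈ S, ∑ j ∈ S, ((c i * c j : ℝ) : ℂ) • Rv p f l i j‖ ^ 2
      = ∑ i ∈ S, ∑ j ∈ S, ∑ k ∈ S, ∑ m ∈ S, c i * c j * (c k * c m)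
        * (inner ℂ (Rv p f l i j) (Rv p f l k m)).re := by
    have h2 : ∀ v : E, ‖v‖ ^ 2 = (inner ℂ v v).re := by
      intro v
      rw [inner_self_eq_norm_sq_to_K]
      norm_cast
    rw [h2, sum_inner, Complex.re_sum]
    refine Finset.sum_congr rfl fun i _ => ?_
    rw [sum_inner, Complex.re_sum]
    refine Finset.sum_congr rfl fun j _ => ?_
    rw [inner_sum, Complex.re_sum]
    refine Finset.sum_congr rfl fun k _ => ?_
    rw [inner_sum, Complex.re_sum]
    refine Finset.sum_congr rfl fun m _ => ?_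
    rw [inner_smul_left, inner_smul_right, Complex.conj_ofReal, ← mul_assoc,
      ← Complex.ofReal_mul, Complex.re_ofReal_mul]
  have h3 : (∑ i ∈ S, ∑ j ∈ S, c i * c j * (kap i j : ℝ)) ^ 2 * ‖f‖ ^ 2
      = ∑ i ∈ S, ∑ j ∈ S, ∑ k ∈ S, ∑ m ∈ S, c i * c j * (c k * c m)
        * ((kap i j : ℝ) * (kap k m : ℝ) * ‖f‖ ^ 2) := by
    rw [sq, Finset.sum_mul, Finset.sum_mul]
    refine Finset.sum_congr rfl fun i _ => ?_
    rw [Finset.sum_mul, Finset.sum_mul]
    refine Finset.sum_congr rfl fun j _ => ?_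
    rw [Finset.mul_sum, Finset.sum_mul]
    refine Finset.sum_congr rfl fun k _ => ?_
    rw [Finset.mul_sum, Finset.sum_mul]
    refine Finset.sum_congr rfl fun m _ => ?_
    ring
  rw [h1, h3]
  simp only [← Finset.sum_sub_distrib]
  refine Finset.sum_congr rfl fun i _ => Finset.sum_congr rfl fun j _ =>
    Finset.sum_congr rfl fun k _ => Finset.sum_congr rfl fun m _ => ?_
  unfold x
  ring

end main

/-- THE OCTOPUS INEQUALITY -/
theorem oct : OCTStmt := by
  intro n E _ _ p hp S l hl c hc f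
  set K : ℝ := ∑ i ∈ S, ∑ j ∈ S, c i * c j * (kap i j : ℝ) with hK
  set v : E := ∑ i ∈ S, ∑ j ∈ S, ((c i * c j : ℝ) : ℂ) • Rv p f l i j with hv
  have hK0 : 0 ≤ K := by
    refine Finset.sum_nonneg fun i _ => Finset.sum_nonneg fun j _ =>
      mul_nonneg (mul_nonneg (hc i) (hc j)) ?_
    unfold kap
    split_ifs <;> norm_num
  have h1 : ‖v‖ ^ 2 ≤ K ^ 2 * ‖f‖ ^ 2 := by
    have h2 := sum_sq p f hp c hc S l hl
    rw [norm_sum p f hp c S l] at h2
    linarith
  have h2 : ‖v‖ ≤ K * ‖f‖ := by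
    rw [← mul_pow] at h1
    exact le_of_sq_le_sq h1 (mul_nonneg hK0 (norm_nonneg f))
  have h3 : (inner ℂ f v).re ≤ K * ‖f‖ ^ 2 := by
    have h4 := re_inner_le_norm (𝕜 := ℂ) f v
    have h5 : ‖f‖ * ‖v‖ ≤ ‖f‖ * (K * ‖f‖) := mul_le_mul_of_nonneg_left h2 (norm_nonneg f)
    have h6 : (inner ℂ f v).re ≤ ‖f‖ * ‖v‖ := h4
    nlinarith
  have h7 : (inner ℂ f v).re = ∑ i ∈ S, ∑ j ∈ S, c i * c j * (inner ℂ f (Rv p f l i j)).re := by
    rw [hv, inner_sum, Complex.re_sum]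
    refine Finset.sum_congr rfl fun i _ => ?_
    rw [inner_sum, Complex.re_sum]
    refine Finset.sum_congr rfl fun j _ => ?_
    rw [inner_smul_right, Complex.re_ofReal_mul]
  have h8 : ∑ i ∈ S, ∑ j ∈ S, c i * c j * (‖f - p (swap i j) f‖ ^ 2
      - ‖f - p (swap l i) f‖ ^ 2 - ‖f - p (swap l j) f‖ ^ 2) ≤ 0 := by
    have h9 : ∑ i ∈ S, ∑ j ∈ S, c i * c j * (‖f - p (swap i j) f‖ ^ 2
        - ‖f - p (swap l i) f‖ ^ 2 - ‖f - p (swap l j) f‖ ^ 2)
        = 2 * ((inner ℂ f v).re - K * ‖f‖ ^ 2) := by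
      rw [h7, hK, Finset.sum_mul, ← Finset.sum_sub_distrib, Finset.mul_sum]
      refine Finset.sum_congr rfl fun i _ => ?_
      rw [Finset.sum_mul, ← Finset.sum_sub_distrib, Finset.mul_sum]
      refine Finset.sum_congr rfl fun j _ => ?_
      rw [term_eq p f hp l i j]
      ring
    rw [h9]
    linarith
  have h10 : 2 * (∑ i ∈ S, c i) * ∑ i ∈ S, c i * ‖f - p (swap l i) f‖ ^ 2
      = ∑ i ∈ S, ∑ j ∈ S, c i * c j * (‖f - p (swap l i) f‖ ^ 2 + ‖f - p (swap l j) f‖ ^ 2) := by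
    have h11 : (∑ i ∈ S, c i) * ∑ i ∈ S, c i * ‖f - p (swap l i) f‖ ^ 2
        = ∑ i ∈ S, ∑ j ∈ S, c i * c j * ‖f - p (swap l j) f‖ ^ 2 := by
      rw [Finset.sum_mul]
      refine Finset.sum_congr rfl fun i _ => ?_
      rw [Finset.mul_sum]
      refine Finset.sum_congr rfl fun j _ => ?_
      ring
    have h12 : (∑ i ∈ S, c i) * ∑ i ∈ S, c i * ‖f - p (swap l i) f‖ ^ 2
        = ∑ i ∈ S, ∑ j ∈ S, c i * c j * ‖f - p (swap l i) f‖ ^ 2 := by
      rw [h11, Finset.sum_comm]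
      refine Finset.sum_congr rfl fun i _ => Finset.sum_congr rfl fun j _ => ?_
      ring
    rw [mul_assoc, two_mul]
    nth_rewrite 1 [h12]
    rw [h11, ← Finset.sum_add_distrib]
    refine Finset.sum_congr rfl fun i _ => ?_
    rw [← Finset.sum_add_distrib]
    refine Finset.sum_congr rfl fun j _ => ?_
    ring
  rw [h10]
  have h13 : ∑ i ∈ S, ∑ j ∈ S, c i * c j * (‖f - p (swap i j) f‖ ^ 2
        - ‖f - p (swap l i) f‖ ^ 2 - ‖f - p (swap l j) f‖ ^ 2)
      = ∑ i ∈ S, ∑ j ∈ S, c i * c j * ‖f - p (swap i j) f‖ ^ 2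
        - ∑ i ∈ S, ∑ j ∈ S, c i * c j * (‖f - p (swap l i) f‖ ^ 2
          + ‖f - p (swap l j) f‖ ^ 2) := by
    rw [← Finset.sum_sub_distrib]
    refine Finset.sum_congr rfl fun i _ => ?_
    rw [← Finset.sum_sub_distrib]
    refine Finset.sum_congr rfl fun j _ => ?_
    ring
  rw [h13] at h8
  linarith

end Pool.Agent.GRA.S.H99
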