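import Pool.Agent.GRA.StmtsK
import Pool.Agent.Helper39_GRA.KEX
import Pool.Agent.Helper65_BSE.IRR
import Pool.Agent.Helper64_FR.Rot

/-!
KRG: the average over the roots of unity.
-/

open MeasureTheory Matrix Finset
open scoped ComplexConjugate

namespace Pool.Agent.GRA.H99

open Pool.Agent.Helper64_FR Pool.Agent.UTR Pool.Agent.BSE Pool.Agent.GRA
open Pool.Agent.BSE.H65.I

/-- the number of occurrences of `p` in a word -/
def cn {n k : ℕ} (p : Fin n) (I : Fin k → Fin n) : ℕ :=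
  (Finset.univ.filter fun s => I s = p).card

theorem prod_dv1 {n k : ℕ} (p : Fin n) (z : ℂ) (I : Fin k → Fin n) :
    ∏ s, dv1 p z (I s) = z ^ cn p I := by
  unfold dv1 cn
  rw [Finset.prod_ite, Finset.prod_const, Finset.prod_const_one, mul_one]

theorem prod_cdv1 {n k : ℕ} (p : Fin n) (z : ℂ) (I : Fin k → Fin n) :
    ∏ s, conj (dv1 p z (I s)) = (conj z) ^ cn p I := by
  rw [← map_prod, prod_dv1, map_pow]

theorem cn_le {n k : ℕ} (p : Fin n) (I : Fin k → Fin n) : cn p I ≤ k := by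
  have h := Finset.card_filter_le (Finset.univ : Finset (Fin k)) (fun s => I s = p)
  rw [Finset.card_univ, Fintype.card_fin] at h
  exact h

theorem cn_const {n k : ℕ} (p : Fin n) : cn p (fun _ : Fin k => p) = k := by
  unfold cn
  rw [Finset.filter_true_of_mem (fun _ _ => rfl), Finset.card_univ, Fintype.card_fin]

theorem cn_const_ne {n k : ℕ} {p q : Fin n} (h : q ≠ p) : cn p (fun _ : Fin k => q) = 0 := by
  unfold cn
  rw [Finset.filter_false_of_mem (fun _ _ => h), Finset.card_empty]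

theorem exists_ne {n k : ℕ} {p : Fin n} {I : Fin k → Fin n} (h : I ≠ fun _ => p) :
    ∃ s, I s ≠ p := by
  by_contra hc
  push Not at hc
  exact h (funext hc)

theorem cn_lt {n k : ℕ} {p : Fin n} {I : Fin k → Fin n} (h : I ≠ fun _ => p) : cn p I < k := by
  obtain ⟨s, hs⟩ := exists_ne h
  have h1 : (Finset.univ.filter fun s => I s = p) ⊂ (Finset.univ : Finset (Fin k)) :=
    Finset.filter_ssubset.2 ⟨s, Finset.mem_univ s, hs⟩
  have h2 := Finset.card_lt_card h1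
  rw [Finset.card_univ, Fintype.card_fin] at h2
  exact h2

theorem avg {N : ℕ} {ζ : ℂ} (hζ : IsPrimitiveRoot ζ N) (e : ℕ) (he : e < N) :
    ∑ t ∈ range N, (ζ ^ t) ^ e = if e = 0 then (N : ℂ) else 0 := by
  by_cases h : e = 0
  · subst h
    simp
  · rw [if_neg h]
    have h1 : ζ ^ e ≠ 1 := fun h2 =>
      Nat.not_dvd_of_pos_of_lt (Nat.pos_of_ne_zero h) he (hζ.dvd_of_pow_eq_one e h2)
    have h2 : ∀ t ∈ range N, (ζ ^ t) ^ e = (ζ ^ e) ^ t := fun t _ => by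
      rw [← pow_mul, ← pow_mul, mul_comm]
    rw [Finset.sum_congr rfl h2]
    have h3 := geom_sum_mul (ζ ^ e) N
    rw [← pow_mul, mul_comm e N, pow_mul, hζ.pow_eq_one, one_pow, sub_self] at h3
    exact (mul_eq_zero.1 h3).resolve_right (sub_ne_zero.2 h1)

theorem avgstep {n k : ℕ} (σ : URep n)
    (T : (Fin σ.dim → ℂ) →ₗ[ℂ] (Matrix (Fin n) (Fin n) ℂ → ℂ))
    (hT : ∀ (g : UU n) (v : Fin σ.dim → ℂ) (M : Matrix (Fin n) (Fin n) ℂ), T (σ.mat g *ᵥ v) M =
      T v (((g⁻¹ : UU n) : Matrix (Fin n) (Fin n) ℂ) * M * (g : Matrix (Fin n) (Fin n) ℂ)))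
    (N : ℕ) (p : Fin n) (z : ℕ → ℂ) (hz : ∀ t, ‖z t‖ = 1) (u : ℕ → ℂ) (x : Fin σ.dim → ℂ)
    (c : (Fin k → Fin n) → (Fin k → Fin n) → ℂ)
    (hc : ∀ M : Matrix (Fin n) (Fin n) ℂ, T x M = ∑ I, ∑ J, c I J * ∏ s, M (I s) (J s)) :
    ∃ y : Fin σ.dim → ℂ, ∀ M : Matrix (Fin n) (Fin n) ℂ, T y M = ∑ I, ∑ J,
      (c I J * ∑ t ∈ range N, u t * (conj (z t) ^ cn p I * (z t) ^ cn p J)) *
        ∏ s, M (I s) (J s) := by
  refine ⟨∑ t ∈ range N, u t • (σ.mat (dz p (z t) (hz t)) *ᵥ x), fun M => ?_⟩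
  rw [map_sum, Finset.sum_apply]
  have h1 : ∀ t ∈ range N, T (u t • (σ.mat (dz p (z t) (hz t)) *ᵥ x)) M = ∑ I, ∑ J,
      (c I J * (u t * (conj (z t) ^ cn p I * (z t) ^ cn p J))) * ∏ s, M (I s) (J s) := by
    intro t _
    rw [map_smul, Pi.smul_apply, smul_eq_mul, hT, hc, Finset.mul_sum]
    refine Finset.sum_congr rfl fun I _ => ?_
    rw [Finset.mul_sum]
    refine Finset.sum_congr rfl fun J _ => ?_
    simp_rw [cj_dz]
    rw [Finset.prod_mul_distrib, Finset.prod_mul_distrib, prod_dv1, prod_cdv1]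
    ring
  rw [Finset.sum_congr rfl h1, Finset.sum_comm]
  refine Finset.sum_congr rfl fun I _ => ?_
  rw [Finset.sum_comm]
  refine Finset.sum_congr rfl fun J _ => ?_
  rw [Finset.mul_sum, Finset.sum_mul]

/-- the extremal vector -/
theorem extremal {n k : ℕ} (σ : URep n)
    (T : (Fin σ.dim → ℂ) →ₗ[ℂ] (Matrix (Fin n) (Fin n) ℂ → ℂ))
    (hT : ∀ (g : UU n) (v : Fin σ.dim → ℂ) (M : Matrix (Fin n) (Fin n) ℂ), T (σ.mat g *ᵥ v) M =
      T v (((g⁻¹ : UU n) : Matrix (Fin n) (Fin n) ℂ) * M * (g : Matrix (Fin n) (Fin n) ℂ)))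
    (l m : Fin n) (hlm : l ≠ m) (x : Fin σ.dim → ℂ)
    (c : (Fin k → Fin n) → (Fin k → Fin n) → ℂ)
    (hc : ∀ M : Matrix (Fin n) (Fin n) ℂ, T x M = ∑ I, ∑ J, c I J * ∏ s, M (I s) (J s))
    (hx : T x (Matrix.single l m 1) ≠ 0) :
    ∃ y : Fin σ.dim → ℂ, ∀ M : Matrix (Fin n) (Fin n) ℂ, T y M = M l m ^ k := by
  have hA : c (fun _ => l) (fun _ => m) ≠ 0 := by
    intro h0
    apply hx
    rw [hc]
    refine Finset.sum_eq_zero fun I _ => Finset.sum_eq_zero fun J _ => ?_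
    by_cases hI : I = fun _ => l
    · by_cases hJ : J = fun _ => m
      · rw [hI, hJ, h0, zero_mul]
      · obtain ⟨s, hs⟩ := exists_ne hJ
        rw [Finset.prod_eq_zero (Finset.mem_univ s), mul_zero]
        exact Matrix.single_apply_of_col_ne _ _ hs.symm _
    · obtain ⟨s, hs⟩ := exists_ne hI
      rw [Finset.prod_eq_zero (Finset.mem_univ s), mul_zero]
      exact Matrix.single_apply_of_row_ne hs.symm _ _ _
  obtain ⟨ζ, hζ⟩ : ∃ ζ : ℂ, IsPrimitiveRoot ζ (2 * k + 1) :=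
    ⟨_, Complex.isPrimitiveRoot_exp (2 * k + 1) (by omega)⟩
  have hζ1 : ‖ζ‖ = 1 := hζ.norm'_eq_one (by omega)
  have hζt : ∀ t : ℕ, ‖ζ ^ t‖ = 1 := fun t => by rw [norm_pow, hζ1, one_pow]
  have hζc : ∀ t : ℕ, ‖conj (ζ ^ t)‖ = 1 := fun t => by rw [Complex.norm_conj, hζt]
  have hzz : ∀ t : ℕ, ζ ^ t * conj (ζ ^ t) = 1 := fun t => by
    rw [Complex.mul_conj', hζt]
    norm_num
  have hcan : ∀ (t a b : ℕ), a ≤ b → (ζ ^ t) ^ b * conj (ζ ^ t) ^ a = (ζ ^ t) ^ (b - a) := by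
    intro t a b hab
    obtain ⟨e, rfl⟩ := Nat.exists_eq_add_of_le hab
    rw [Nat.add_sub_cancel_left, pow_add, mul_right_comm, ← mul_pow, hzz, one_pow, one_mul]
  obtain ⟨y1, hy1⟩ := avgstep σ T hT (2 * k + 1) l (fun t => ζ ^ t) hζt (fun t => (ζ ^ t) ^ k) x c
    hc
  obtain ⟨y2, hy2⟩ := avgstep σ T hT (2 * k + 1) m (fun t => conj (ζ ^ t)) hζc
    (fun t => (ζ ^ t) ^ k) y1 _ hy1
  have hS1 : ∀ I J : Fin k → Fin n, ∑ t ∈ range (2 * k + 1), (ζ ^ t) ^ k *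
      (conj (ζ ^ t) ^ cn l I * (ζ ^ t) ^ cn l J) =
      if k - cn l I + cn l J = 0 then (((2 * k + 1 : ℕ)) : ℂ) else 0 := by
    intro I J
    have hI := cn_le l I
    have hJ := cn_le l J
    rw [← avg hζ (k - cn l I + cn l J) (by omega)]
    refine Finset.sum_congr rfl fun t _ => ?_
    rw [← mul_assoc, hcan t _ _ hI, ← pow_add]
  have hS2 : ∀ J : Fin k → Fin n, ∑ t ∈ range (2 * k + 1), (ζ ^ t) ^ k *
      (conj (conj (ζ ^ t)) ^ cn m (fun _ : Fin k => l) * conj (ζ ^ t) ^ cn m J) =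
      if k - cn m J = 0 then (((2 * k + 1 : ℕ)) : ℂ) else 0 := by
    intro J
    have hJ := cn_le m J
    rw [← avg hζ (k - cn m J) (by omega)]
    refine Finset.sum_congr rfl fun t _ => ?_
    rw [cn_const_ne hlm, pow_zero, one_mul, hcan t _ _ hJ]
  have hN : (((2 * k + 1 : ℕ)) : ℂ) ≠ 0 := by exact_mod_cast (by omega : 2 * k + 1 ≠ 0)
  have hfin : ∀ M : Matrix (Fin n) (Fin n) ℂ, T y2 M =
      (c (fun _ => l) (fun _ => m) * (((2 * k + 1 : ℕ)) : ℂ) * (((2 * k + 1 : ℕ)) : ℂ)) *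
        M l m ^ k := by
    intro M
    rw [hy2, Finset.sum_eq_single (fun _ => l), Finset.sum_eq_single (fun _ => m)]
    · rw [hS1, hS2, cn_const, cn_const_ne hlm.symm, cn_const, Nat.sub_self, if_pos rfl]
      have hp : ∏ s : Fin k, M ((fun _ : Fin k => l) s) ((fun _ : Fin k => m) s) = M l m ^ k := by
        simp
      rw [hp]
    · intro J _ hJ
      rw [hS2, if_neg, mul_zero, zero_mul]
      have := cn_lt hJ
      omega
    · intro h
      exact absurd (Finset.mem_univ _) h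
    · intro I _ hI
      refine Finset.sum_eq_zero fun J _ => ?_
      rw [hS1, if_neg, mul_zero, zero_mul, zero_mul]
      have := cn_lt hI
      omega
    · intro h
      exact absurd (Finset.mem_univ _) h
  have hne : c (fun _ => l) (fun _ => m) * (((2 * k + 1 : ℕ)) : ℂ) * (((2 * k + 1 : ℕ)) : ℂ) ≠ 0 :=
    mul_ne_zero (mul_ne_zero hA hN) hN
  refine ⟨(c (fun _ => l) (fun _ => m) * (((2 * k + 1 : ℕ)) : ℂ) *
    (((2 * k + 1 : ℕ)) : ℂ))⁻¹ • y2, fun M => ?_⟩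
  rw [map_smul, Pi.smul_apply, smul_eq_mul, hfin, ← mul_assoc, inv_mul_cancel₀ hne, one_mul]

/-- the image is the span of the orbit -/
theorem isBose_of {n k : ℕ} (σ : URep n) (hirr : σ.Irred)
    (T : (Fin σ.dim → ℂ) →ₗ[ℂ] (Matrix (Fin n) (Fin n) ℂ → ℂ))
    (hT : ∀ (g : UU n) (v : Fin σ.dim → ℂ) (M : Matrix (Fin n) (Fin n) ℂ), T (σ.mat g *ᵥ v) M =
      T v (((g⁻¹ : UU n) : Matrix (Fin n) (Fin n) ℂ) * M * (g : Matrix (Fin n) (Fin n) ℂ)))
    (hinj : Function.Injective T) (l m : Fin n) (hlm : l ≠ m) (y : Fin σ.dim → ℂ)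
    (hy : ∀ M : Matrix (Fin n) (Fin n) ℂ, T y M = M l m ^ k) : IsBose k σ := by
  have horb : ∀ g : UU n, T (σ.mat g *ᵥ y) = orb k l m g := by
    intro g
    funext M
    rw [hT, hy]
    rfl
  have hy0 : y ≠ 0 := by
    intro h
    have h1 := hy (Matrix.single l m 1)
    rw [h, map_zero, Matrix.single_apply_same, one_pow] at h1
    exact zero_ne_one h1
  have hspan : Submodule.span ℂ (Set.range fun g : UU n => σ.mat g *ᵥ y) = ⊤ := by
    refine (hirr.2 _ ?_).resolve_left ?_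
    · intro g x hx
      have h1 : Submodule.span ℂ (Set.range fun g : UU n => σ.mat g *ᵥ y) ≤
          Submodule.comap (Matrix.mulVecLin (σ.mat g))
            (Submodule.span ℂ (Set.range fun g : UU n => σ.mat g *ᵥ y)) := by
        rw [Submodule.span_le]
        rintro _ ⟨g', rfl⟩
        show σ.mat g *ᵥ (σ.mat g' *ᵥ y) ∈ Submodule.span ℂ (Set.range fun g : UU n => σ.mat g *ᵥ y)
        rw [Matrix.mulVec_mulVec, ← σ.mat_mul]
        exact Submodule.subset_span ⟨g * g', rfl⟩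
      exact h1 hx
    · intro h
      have h1 : σ.mat 1 *ᵥ y ∈ Submodule.span ℂ (Set.range fun g : UU n => σ.mat g *ᵥ y) :=
        Submodule.subset_span ⟨1, rfl⟩
      rw [h, σ.mat_one, Matrix.one_mulVec] at h1
      exact hy0 ((Submodule.mem_bot ℂ).1 h1)
  refine ⟨l, m, hlm, T, hinj, ?_, hT⟩
  rw [← Submodule.map_top, ← hspan, Submodule.map_span, ← Set.range_comp]
  congr 2
  funext g
  exact horb g

theorem sph_smul {n : ℕ} (σ : URep n) (h : σ.Sp) (l : Fin n) (k : ℕ) (x : σ.Sp) (c : ℂ)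
    (M : Matrix (Fin n) (Fin n) ℂ) : sph σ h l k x (c • M) = c ^ k * sph σ h l k x M := by
  unfold sph
  rw [← integral_const_mul]
  refine congrArg (fun F : UU n → ℂ => ∫ g, F g ∂(haarU n)) (funext fun g => ?_)
  rw [Matrix.mul_smul, Matrix.smul_mul, Matrix.smul_apply, smul_eq_mul, mul_pow]
  ring

theorem par : ∃ t r : ℝ, 1 - 2 / (1 + t ^ 2) = r ∧ -(2 / (1 + t ^ 2) * t) = r ∧
    1 - 2 / (1 + t ^ 2) * (t * t) = -r ∧ r * r = 1 / 2 := by
  have hs : √2 * √2 = (2 : ℝ) := Real.mul_self_sqrt (by norm_num)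
  have h1 : (1 + (-(1 + √2)) ^ 2 : ℝ) ≠ 0 := by positivity
  have h2 : (2 / (1 + (-(1 + √2)) ^ 2) : ℝ) = 1 - √2 / 2 := by
    rw [div_eq_iff h1]
    linear_combination (√2 / 2) * hs
  refine ⟨-(1 + √2), √2 / 2, ?_, ?_, ?_, ?_⟩
  · rw [h2]
    ring
  · rw [h2]
    linear_combination (-1 / 2 : ℝ) * hs
  · rw [h2]
    linear_combination (√2 / 2) * hs
  · linear_combination (1 / 4 : ℝ) * hs

/-- the rotation -/
theorem rot_eq {n : ℕ} {l m : Fin n} (hlm : l ≠ m) : ∃ g : UU n,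
    (g : Matrix (Fin n) (Fin n) ℂ) * Matrix.single l m 1 *
      ((g⁻¹ : UU n) : Matrix (Fin n) (Fin n) ℂ) =
    (1 / 2 : ℂ) • rk (Pi.single l 1 + Pi.single m 1) (Pi.single l 1 + Pi.single m (-1)) := by
  obtain ⟨t, r, h1, h2, h3, h4⟩ := par
  have h1' : (1 : ℂ) - ((2 / (1 + t ^ 2) : ℝ) : ℂ) = (r : ℂ) := by rw [← h1]; push_cast; ring
  have h2' : -(((2 / (1 + t ^ 2) : ℝ) : ℂ) * t) = (r : ℂ) := by rw [← h2]; push_cast; ring
  have h3' : (1 : ℂ) - ((2 / (1 + t ^ 2) : ℝ) : ℂ) * (t * t) = -(r : ℂ) := by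
    rw [← Complex.ofReal_neg, ← h3]; push_cast; ring
  have h4' : (r : ℂ) * r = 1 / 2 := by rw [← Complex.ofReal_mul, h4]; push_cast; ring
  refine ⟨rfU hlm t, ?_⟩
  rw [rfU_inv]
  show rf l m t * Matrix.single l m 1 * rf l m t = _
  have e1 : ∀ (A B : Matrix (Fin n) (Fin n) ℂ) (i j : Fin n),
      (A * (Matrix.single l m 1 : Matrix (Fin n) (Fin n) ℂ) * B : Matrix (Fin n) (Fin n) ℂ) i j =
        A i l * B m j := by
    intro A B i j
    rw [Matrix.mul_apply, Finset.sum_eq_single m]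
    · rw [Matrix.mul_single_apply_same, mul_one]
    · intro b _ hb
      rw [Matrix.mul_single_apply_of_ne, zero_mul]
      exact hb
    · intro h
      exact absurd (Finset.mem_univ _) h
  have yl : Pool.Agent.Helper64_FR.yv l m t l = 1 := by
    simp [Pool.Agent.Helper64_FR.yv, hlm]
  have ym : Pool.Agent.Helper64_FR.yv l m t m = t := by
    simp [Pool.Agent.Helper64_FR.yv, hlm.symm]
  ext i j
  rw [e1, Matrix.smul_apply, smul_eq_mul, rf_apply, rf_apply, yl, ym]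
  show _ = (1 / 2 : ℂ) * ((Pi.single l 1 + Pi.single m 1 : Fin n → ℂ) i *
    conj ((Pi.single l 1 + Pi.single m (-1) : Fin n → ℂ) j))
  generalize ((2 / (1 + t ^ 2) : ℝ) : ℂ) = c at h1' h2' h3' ⊢
  have ei : (if i = l then (1 : ℂ) else 0) - c * (Pool.Agent.Helper64_FR.yv l m t i * 1) =
      r * (Pi.single l 1 + Pi.single m 1 : Fin n → ℂ) i := by
    by_cases hi : i = l
    · rw [hi, yl, if_pos rfl, Pi.add_apply, Pi.single_eq_same, Pi.single_eq_of_ne hlm, ← h1']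
      ring
    · by_cases hi2 : i = m
      · rw [hi2, ym, if_neg hlm.symm, Pi.add_apply, Pi.single_eq_same,
          Pi.single_eq_of_ne hlm.symm, ← h2']
        ring
      · rw [yv_other t hi hi2, if_neg hi, Pi.add_apply, Pi.single_eq_of_ne hi,
          Pi.single_eq_of_ne hi2]
        ring
  have ej : (if m = j then (1 : ℂ) else 0) - c * (t * Pool.Agent.Helper64_FR.yv l m t j) =
      r * conj ((Pi.single l 1 + Pi.single m (-1) : Fin n → ℂ) j) := by
    by_cases hj : j = l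
    · rw [hj, yl, if_neg hlm.symm, Pi.add_apply, Pi.single_eq_same, Pi.single_eq_of_ne hlm,
        ← h2', add_zero, map_one]
      ring
    · by_cases hj2 : j = m
      · rw [hj2, ym, if_pos rfl, Pi.add_apply, Pi.single_eq_same,
          Pi.single_eq_of_ne hlm.symm, zero_add, map_neg, map_one]
        linear_combination h3'
      · rw [yv_other t hj hj2, if_neg (fun h => hj2 h.symm), Pi.add_apply,
          Pi.single_eq_of_ne hj, Pi.single_eq_of_ne hj2, add_zero, map_zero]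
        ring
  rw [ei, ej]
  linear_combination ((Pi.single l 1 + Pi.single m 1 : Fin n → ℂ) i *
    conj ((Pi.single l 1 + Pi.single m (-1) : Fin n → ℂ) j)) * h4'

theorem krg (hKEX : KEXStmt) (hKEQ : KEQStmt) : KRGStmt := by
  intro n σ h l m hlm hirr k hne
  obtain ⟨T, hT1, hT2, hT3⟩ := hKEQ n σ h l k
  have hinj : Function.Injective T := hT3 hirr ⟨WithLp.ofLp h, _, by rw [hT1]; exact hne⟩
  obtain ⟨g, hg⟩ := rot_eq hlm
  have hx : T (σ.mat g⁻¹ *ᵥ WithLp.ofLp h) (Matrix.single l m 1) ≠ 0 := by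
    rw [hT2, inv_inv, hg, hT1, sph_smul]
    exact mul_ne_zero (pow_ne_zero _ (by norm_num)) hne
  have hc : ∀ M : Matrix (Fin n) (Fin n) ℂ, T (σ.mat g⁻¹ *ᵥ WithLp.ofLp h) M =
      ∑ I : Fin k → Fin n, ∑ J : Fin k → Fin n,
        arr σ h l k (WithLp.toLp 2 (σ.mat g⁻¹ *ᵥ WithLp.ofLp h)) I J * ∏ s, M (I s) (J s) :=
    fun M => by rw [hT1, (hKEX n σ h l k).1]
  obtain ⟨y, hy⟩ := extremal σ T hT2 l m hlm _ _ hc hx
  exact isBose_of σ hirr T hT2 hinj l m hlm y hy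

end Pool.Agent.GRA.H99
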