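import Pool.Agent.GRA.StmtsM
import Pool.Agent.Helper64_FR.FIX
import Pool.Agent.Helper73_FR.Cas
import Pool.Agent.Helper47_FR.Der

/-!
MRB: the mean field bound, induction step.
-/

open MeasureTheory Matrix Finset
open scoped ComplexConjugate

namespace Pool.Agent.GRA.H99

open Pool.Agent.Helper64_FR Pool.Agent.UTR Pool.Agent.BSE Pool.Agent.GRA

theorem starEE {n : ℕ} (i j : Fin n) : star (EE i j) = EE j i := by
  show star (Matrix.single i j (1 : ℂ)) = Matrix.single j i 1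
  rw [Matrix.star_eq_conjTranspose, Matrix.conjTranspose_single, star_one]

/-- `⟨f - P f, f⟩ = ‖f - P f‖²` -/
theorem inner_sub_P {n : ℕ} (ρ : URep n) (B : Finset (Fin n)) (f : ρ.Sp) :
    (inner ℂ (f - ρ.P B f) f : ℂ) = ((‖f - ρ.P B f‖ ^ 2 : ℝ) : ℂ) := by
  have h1 : (inner ℂ (f - ρ.P B f) (ρ.P B f) : ℂ) = 0 := by
    have h2 : (inner ℂ (ρ.P B (f - ρ.P B f)) f : ℂ) = inner ℂ (f - ρ.P B f) (ρ.P B f) := by
      have h3 : ∀ x : ρ.Sp, (inner ℂ (star (ρ.P B) x) f : ℂ) = inner ℂ x (ρ.P B f) := by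
        intro x
        rw [ContinuousLinearMap.star_eq_adjoint, ContinuousLinearMap.adjoint_inner_left]
      rw [FIX.P_star ρ B] at h3
      exact h3 _
    rw [← h2, map_sub]
    have h4 : ρ.P B (ρ.P B f) = ρ.P B f := by
      have := congrArg (fun A : ρ.Sp →L[ℂ] ρ.Sp => A f) (FIX.P_idem ρ B)
      exact this
    rw [h4, sub_self, inner_zero_left]
  have h5 : (inner ℂ (f - ρ.P B f) f : ℂ) = inner ℂ (f - ρ.P B f) (f - ρ.P B f) := by
    rw [inner_sub_right, h1, sub_zero]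
  rw [h5, inner_self_eq_norm_sq_to_K]
  push_cast
  rfl

/-- `K f = 6 (f - P f)` implies `‖E_ba f‖² = 6 ‖f - P f‖²` -/
theorem norm_of_Kp {n : ℕ} (ρ : URep n) (D : Matrix (Fin n) (Fin n) ℂ →ₗ[ℂ] (ρ.Sp →L[ℂ] ρ.Sp))
    (hD : IsDer ρ D) (a b : Fin n) (B : Finset (Fin n)) (f : ρ.Sp)
    (h : Kp ρ D a b f = (6 : ℂ) • (f - ρ.P B f)) :
    ‖D (EE b a) f‖ ^ 2 = 6 * ‖f - ρ.P B f‖ ^ 2 := by
  have h1 : (inner ℂ (Kp ρ D a b f) f : ℂ) = ((‖D (EE b a) f‖ ^ 2 : ℝ) : ℂ) := by
    have h2 : Kp ρ D a b f = star (D (EE b a)) (D (EE b a) f) := by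
      rw [hD.star_eq, starEE]
      rfl
    rw [h2, ContinuousLinearMap.star_eq_adjoint, ContinuousLinearMap.adjoint_inner_left,
      inner_self_eq_norm_sq_to_K]
    push_cast
    rfl
  rw [h, inner_smul_left, inner_sub_P] at h1
  have h3 : ((6 * ‖f - ρ.P B f‖ ^ 2 : ℝ) : ℂ) = ((‖D (EE b a) f‖ ^ 2 : ℝ) : ℂ) := by
    rw [← h1]
    push_cast
    rw [map_ofNat]
  exact (Complex.ofReal_injective h3).symm

/-- invariance under permutations -/
theorem norm_pair (hMSH : MSHStmt) {n : ℕ} (ρ : URep n)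
    (D : Matrix (Fin n) (Fin n) ℂ →ₗ[ℂ] (ρ.Sp →L[ℂ] ρ.Sp)) (hD : IsDer ρ D) (f : ρ.Sp)
    (hf : SI ρ f) (a b c d : Fin n) (hab : a ≠ b) (hcd : c ≠ d) :
    ‖f - ρ.P {a, b} f‖ = ‖f - ρ.P {c, d} f‖ := by
  obtain ⟨τ, h1, h2⟩ : ∃ τ : Equiv.Perm (Fin n), τ a = c ∧ τ b = d := by
    refine ⟨Equiv.swap (Equiv.swap a c b) d * Equiv.swap a c, ?_, ?_⟩
    · rw [Equiv.Perm.mul_apply, Equiv.swap_apply_left]
      apply Equiv.swap_apply_of_ne_of_ne
      · intro h
        have h3 : Equiv.swap a c a = Equiv.swap a c b := by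
          rw [Equiv.swap_apply_left]; exact h
        exact hab ((Equiv.swap a c).injective h3)
      · exact hcd
    · rw [Equiv.Perm.mul_apply, Equiv.swap_apply_left]
  have h4 := (hMSH n ρ D hD).2.2.2.1 τ {a, b} f
  rw [hf τ] at h4
  have h5 : ({a, b} : Finset (Fin n)).map τ.toEmbedding = {c, d} := by
    rw [Finset.map_insert, Finset.map_singleton]
    simp [h1, h2]
  rw [h5] at h4
  have h6 : ρ.op (pm τ) (f - ρ.P {a, b} f) = f - ρ.P {c, d} f := by
    rw [map_sub, hf τ, h4]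
  rw [← h6, URep.norm_op_apply]

theorem abs_dl {n : ℕ} (a b i j : Fin n) (hab : a ≠ b) :
    |((if i = a then (1 : ℝ) else 0) - (if i = b then 1 else 0)) -
      ((if j = a then (1 : ℝ) else 0) - (if j = b then 1 else 0))| =
    (if i = a then (1 : ℝ) else 0) + (if j = a then (1 : ℝ) else 0) +
      (if i = b then (1 : ℝ) else 0) + (if j = b then (1 : ℝ) else 0) -
      2 * ((if i = a then (1 : ℝ) else 0) * (if j = a then (1 : ℝ) else 0)) -
      2 * ((if i = b then (1 : ℝ) else 0) * (if j = b then (1 : ℝ) else 0)) := by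
  by_cases h1 : i = a
  · have h2 : ¬ i = b := fun h => hab (h1.symm.trans h)
    by_cases h3 : j = a
    · have h4 : ¬ j = b := fun h => hab (h3.symm.trans h)
      simp only [if_pos h1, if_neg h2, if_pos h3, if_neg h4]
      norm_num
    · by_cases h4 : j = b
      · simp only [if_pos h1, if_neg h2, if_neg h3, if_pos h4]
        norm_num
      · simp only [if_pos h1, if_neg h2, if_neg h3, if_neg h4]
        norm_num
  · by_cases h2 : i = b
    · by_cases h3 : j = a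
      · have h4 : ¬ j = b := fun h => hab (h3.symm.trans h)
        simp only [if_neg h1, if_pos h2, if_pos h3, if_neg h4]
        norm_num
      · by_cases h4 : j = b
        · simp only [if_neg h1, if_pos h2, if_neg h3, if_pos h4]
          norm_num
        · simp only [if_neg h1, if_pos h2, if_neg h3, if_neg h4]
          norm_num
    · by_cases h3 : j = a
      · have h4 : ¬ j = b := fun h => hab (h3.symm.trans h)
        simp only [if_neg h1, if_neg h2, if_pos h3, if_neg h4]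
        norm_num
      · by_cases h4 : j = b
        · simp only [if_neg h1, if_neg h2, if_neg h3, if_pos h4]
          norm_num
        · simp only [if_neg h1, if_neg h2, if_neg h3, if_neg h4]
          norm_num

theorem sum_abs_dl {n : ℕ} (a b : Fin n) (hab : a ≠ b) :
    ∑ i : Fin n, ∑ j : Fin n, |((if i = a then (1 : ℝ) else 0) - (if i = b then 1 else 0)) -
      ((if j = a then (1 : ℝ) else 0) - (if j = b then 1 else 0))| = 4 * (n : ℝ) - 4 := by
  simp_rw [abs_dl a b _ _ hab]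
  simp only [Finset.sum_sub_distrib, Finset.sum_add_distrib, ← Finset.mul_sum,
    Finset.sum_ite_eq', Finset.mem_univ, if_true, Finset.sum_const, Finset.card_univ,
    Fintype.card_fin, nsmul_eq_mul, mul_one]
  ring

theorem sum_sq_dl {n : ℕ} (a b : Fin n) (hab : a ≠ b) :
    ∑ i : Fin n, (4 * ((if i = a then (1 : ℝ) else 0) - (if i = b then 1 else 0))) ^ 2 = 32 := by
  have h : ∀ i : Fin n, (4 * ((if i = a then (1 : ℝ) else 0) - (if i = b then 1 else 0))) ^ 2 =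
      16 * (if i = a then (1 : ℝ) else 0) + 16 * (if i = b then (1 : ℝ) else 0) := by
    intro i
    by_cases h1 : i = a
    · have h2 : ¬ i = b := fun h => hab (h1.symm.trans h)
      simp only [if_pos h1, if_neg h2]
      norm_num
    · by_cases h2 : i = b
      · simp only [if_neg h1, if_pos h2]
        norm_num
      · simp only [if_neg h1, if_neg h2]
        norm_num
  simp_rw [h]
  rw [Finset.sum_add_distrib, ← Finset.mul_sum, ← Finset.mul_sum]
  simp only [Finset.sum_ite_eq', Finset.mem_univ, if_true]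
  norm_num

/-- `E_ab⁴ f = 0` if the Casimir constant is small -/
theorem pow4 (hMSH : MSHStmt) (hMWT : MWTStmt) {n : ℕ} (ρ : URep n)
    (D : Matrix (Fin n) (Fin n) ℂ →ₗ[ℂ] (ρ.Sp →L[ℂ] ρ.Sp)) (C : ℝ) (hD : IsDer ρ D)
    (hC : IsCas ρ D C) (hlt : C < 8 * (n : ℝ) + 24) (f : ρ.Sp) (hf : TInv ρ f) (a b : Fin n)
    (hab : a ≠ b) : D (EE a b) (D (EE a b) (D (EE a b) (D (EE a b) f))) = 0 := by
  by_contra hne
  have hw0 : wt ρ D (fun _ => 0) f := ((hMSH n ρ D hD).2.1 f).1 hf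
  have hw1 := (hMSH n ρ D hD).1 _ _ a b hw0
  have hw2 := (hMSH n ρ D hD).1 _ _ a b hw1
  have hw3 := (hMSH n ρ D hD).1 _ _ a b hw2
  have hw4 := (hMSH n ρ D hD).1 _ _ a b hw3
  have hw5 : wt ρ D (fun i => 4 * ((if i = a then (1 : ℝ) else 0) - (if i = b then 1 else 0)))
      (D (EE a b) (D (EE a b) (D (EE a b) (D (EE a b) f)))) := by
    intro i
    rw [hw4 i]
    congr 1
    refine congrArg (fun r : ℝ => (r : ℂ)) ?_
    ring
  have h6 := (hMWT n ρ D C hD hC _ _ hne hw5).1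
  rw [sum_sq_dl a b hab] at h6
  have h7 : ∑ i : Fin n, ∑ j : Fin n,
      |4 * ((if i = a then (1 : ℝ) else 0) - (if i = b then 1 else 0)) -
      4 * ((if j = a then (1 : ℝ) else 0) - (if j = b then 1 else 0))| =
      4 * (4 * (n : ℝ) - 4) := by
    rw [← sum_abs_dl a b hab, Finset.mul_sum]
    refine Finset.sum_congr rfl fun i _ => ?_
    rw [Finset.mul_sum]
    refine Finset.sum_congr rfl fun j _ => ?_
    rw [← mul_sub, abs_mul, abs_of_pos (by norm_num : (0 : ℝ) < 4)]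
  rw [h7] at h6
  linarith

theorem mrb (hMDE : MDEStmt) (hMZC : MZCStmt) (hMCP : MCPStmt) (hM2A : M2AStmt) (hMDN : MDNStmt)
    (hMED : MEDStmt) (hMIP : MIPStmt) (hMAR : MARStmt) (hMWT : MWTStmt) (hMK6 : MK6Stmt)
    (hMCA : MCAStmt) (hMSH : MSHStmt) : MRBStmt := by
  intro p hp hMF ρ D C hirr hns hD hC hC6 f hf hSI hf0 a b hab
  have hp4 : (4 : ℝ) ≤ p := by exact_mod_cast hp
  have hFpos : 0 < ‖f‖ ^ 2 := by
    have := norm_pos_iff.mpr hf0
    positivity
  by_cases hcase : C < 8 * ((p : ℝ) + 1) + 24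
  · have h4 := pow4 hMSH hMWT ρ D C hD hC (by push_cast; exact hcase) f hf a b hab
    have h6 := (hMK6 (p + 1) ρ D hD a b hab f hf (hSI (Equiv.swap a b))).2 h4
    have hn := norm_of_Kp ρ D hD a b {a, b} f h6
    have hca := (hMCA (p + 1) ρ D C hD hC f hf).2 hSI a b hab
    rw [hn] at hca
    push_cast at hca
    generalize ‖f - ρ.P {a, b} f‖ ^ 2 = X at hca ⊢
    generalize ‖f‖ ^ 2 = F at hca hFpos ⊢
    have h7 : (6 * ((p : ℝ) + 1) + 6) * F ≤ C * F := mul_le_mul_of_nonneg_right hC6 hFpos.le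
    have h8 : ((p : ℝ) + 2) * F ≤ ((p : ℝ) + 1) * p * X := by
      rw [← hca] at h7
      nlinarith [h7]
    have h9 : (2 * (p : ℝ) - 3) * (((p : ℝ) + 2) * F) ≤ (2 * (p : ℝ) - 3) * (((p : ℝ) + 1) * p * X) :=
      mul_le_mul_of_nonneg_left h8 (by linarith)
    have h10 : 0 ≤ ((p : ℝ) - 4) * F := mul_nonneg (by linarith) hFpos.le
    refine le_of_mul_le_mul_left ?_ (by linarith : (0 : ℝ) < (p : ℝ) + 1)
    nlinarith [h9, h10]
  · push Not at hcase
    obtain ⟨d⟩ := hMDE p ρ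
    have hD1 := hMZC (p + 1) ρ D hD hirr f hf0 hf
    have hex : ∀ t, ∃ (D' : Matrix (Fin p) (Fin p) ℂ →ₗ[ℂ] ((d.σ t).Sp →L[ℂ] (d.σ t).Sp))
        (C' : ℝ), IsDer (d.σ t) D' ∧ IsCas (d.σ t) D' C' := by
      intro t
      obtain ⟨D', hD'⟩ := H47.der p (d.σ t)
      obtain ⟨c, -, hc, -⟩ := H73.cas p (d.σ t) D' (d.irr t) hD'
      exact ⟨D', c, hD', hc⟩
    choose D' C' hD' hC' using hex
    obtain ⟨i1, i2, i3, i4, i5, i6⟩ := hMIP p ρ d
    have hNTr := i5 hns
    have hmass := (i6 f hf).1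
    have hed := hMED p (by omega) ρ d D C C' hD hC hD1 (fun t => ⟨D' t, hD' t, hC' t⟩) f hf hSI
    obtain ⟨a0, b0, hab0⟩ : ∃ a0 b0 : Fin p, a0 ≠ b0 := by
      refine ⟨⟨0, by omega⟩, ⟨1, by omega⟩, ?_⟩
      intro h
      have := congrArg Fin.val h
      simp at this
    have hB : ({a0, b0} : Finset (Fin p)).map Fin.castSuccEmb = {a0.castSucc, b0.castSucc} := by
      rw [Finset.map_insert, Finset.map_singleton]
      rfl
    have hpr := (i6 f hf).2 {a0, b0}
    rw [hB] at hpr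
    have hinv : ‖f - ρ.P {a, b} f‖ = ‖f - ρ.P {a0.castSucc, b0.castSucc} f‖ :=
      norm_pair hMSH ρ D hD f hSI a b _ _ hab (fun h => hab0 (Fin.castSucc_injective p h))
    rw [hinv, hpr]
    have key : ∀ t, ∃ x : ℝ, 0 ≤ x ∧ x ≤ ‖pr (d.T t) f‖ ^ 2 ∧
        x * (C / 2 - 2 * ((p : ℝ) + 1)) + 3 * (‖pr (d.T t) f‖ ^ 2 - x) ≤
          ((C - C' t) / 2) * ‖pr (d.T t) f‖ ^ 2 ∧
        (2 * ((p : ℝ) + 1) / (3 * p)) * x + (1 + dl p) * (‖pr (d.T t) f‖ ^ 2 - x) ≤
          ((p : ℝ) - 1) * ‖pr (d.T t) f - (d.σ t).P {a0, b0} (pr (d.T t) f)‖ ^ 2 := by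
      intro t
      by_cases h0 : pr (d.T t) f = 0
      · refine ⟨0, le_refl _, by positivity, ?_, ?_⟩
        · rw [h0]; simp
        · rw [h0]; simp
      · have hTf := (i4 t f).1 hf
        have hSf := (i4 t f).2 hSI
        rcases hMCP p (by omega) hMF (d.σ t) (D' t) (C' t) (d.irr t) (hD' t) (hC' t)
          (pr (d.T t) f) hTf hSf h0 with hW | ⟨hB1, ⟨ν, v, hv, hwt, hν⟩, hB3⟩
        · obtain ⟨e1, e2⟩ := hM2A p (by omega) (d.σ t) (D' t) (C' t) (hNTr t) (hD' t) (hC' t) hW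
            _ hTf hSf h0
          refine ⟨‖pr (d.T t) f‖ ^ 2, by positivity, le_refl _, ?_, ?_⟩
          · rw [e1]
            apply le_of_eq
            ring
          · have h5 := (e2 a0 b0 hab0).2
            rw [sub_self, mul_zero, add_zero, div_mul_eq_mul_div,
              div_le_iff₀ (by linarith : (0 : ℝ) < 3 * (p : ℝ))]
            linarith
        · have h3 := (hMDN p ρ (d.σ t) (d.T t) (d.cmp t) D (D' t) C (C' t) hD (hD' t) hC (hC' t)
            hD1).2 ν v hv hwt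
          refine ⟨0, le_refl _, by positivity, ?_, ?_⟩
          · rw [zero_mul, zero_add, sub_zero]
            exact mul_le_mul_of_nonneg_right (hν.trans h3) (by positivity)
          · rw [mul_zero, zero_add, sub_zero]
            exact hB3 a0 b0 hab0
    choose x hx0 hx1 hx2 hx3 using key
    have s1 : 0 ≤ ∑ t, x t := Finset.sum_nonneg fun t _ => hx0 t
    have s2 : ∑ t, x t ≤ ‖f‖ ^ 2 := by
      rw [hmass]
      exact Finset.sum_le_sum fun t _ => hx1 t
    have s3 : (∑ t, x t) * (C / 2 - 2 * ((p : ℝ) + 1)) + 3 * (‖f‖ ^ 2 - ∑ t, x t) ≤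
        (C / ((p : ℝ) + 1)) * ‖f‖ ^ 2 := by
      rw [← hed, hmass, ← Finset.sum_sub_distrib, Finset.sum_mul, Finset.mul_sum,
        ← Finset.sum_add_distrib]
      exact Finset.sum_le_sum fun t _ => hx2 t
    have s4 : (2 * ((p : ℝ) + 1) / (3 * p)) * (∑ t, x t) + (1 + dl p) * (‖f‖ ^ 2 - ∑ t, x t) ≤
        ((p : ℝ) - 1) *
          ∑ t, ‖pr (d.T t) f - (d.σ t).P {a0, b0} (pr (d.T t) f)‖ ^ 2 := by
      rw [hmass, ← Finset.sum_sub_distrib, Finset.mul_sum, Finset.mul_sum, Finset.mul_sum,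
        ← Finset.sum_add_distrib]
      exact Finset.sum_le_sum fun t _ => hx3 t
    generalize (∑ t, ‖pr (d.T t) f - (d.σ t).P {a0, b0} (pr (d.T t) f)‖ ^ 2) = Q at s4 ⊢
    generalize (∑ t, x t) = m at s1 s2 s3 s4
    generalize ‖f‖ ^ 2 = F at hFpos s2 s3 s4 ⊢
    have hmar := hMAR ((p : ℝ) + 1) (C / 2) (m / F) (by linarith) (by linarith)
      (div_nonneg s1 hFpos.le) ((div_le_one hFpos).mpr s2) (by
        have h1 : m / F * (C / 2 - 2 * ((p : ℝ) + 1)) + 3 * (1 - m / F) =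
            (m * (C / 2 - 2 * ((p : ℝ) + 1)) + 3 * (F - m)) / F := by
          field_simp
        rw [h1, div_le_iff₀ hFpos]
        refine s3.trans (le_of_eq ?_)
        ring)
    have e : (p : ℝ) + 1 - 1 = p := by ring
    rw [e] at hmar ⊢
    have h11 : ((p : ℝ) + 1 - 2) * (2 * ((p : ℝ) + 1) - 4) / (p * (2 * ((p : ℝ) + 1) - 5)) * F ≤
        ((p : ℝ) - 1) * Q := by
      refine (mul_le_mul_of_nonneg_right hmar hFpos.le).trans (le_trans (le_of_eq ?_) s4)
      field_simp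
    rw [div_mul_eq_mul_div, div_le_iff₀ (mul_pos (by linarith) (by linarith))] at h11
    refine le_of_mul_le_mul_left ?_ (by linarith : (0 : ℝ) < (p : ℝ) - 1)
    refine le_trans (le_of_eq ?_) (h11.trans (le_of_eq ?_))
    · ring
    · ring

end Pool.Agent.GRA.H99
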