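import Pool.Agent.Helper99_GRA.Gr

/-!
Fast codes for permutations of five letters: the kernel works with natural numbers only.
-/

set_option autoImplicit false

namespace Pool.Agent.GRA.S.H99

open Equiv

/-- code of a permutation of five letters -/
def cd (g : Perm (Fin 5)) : ℕ :=
  (g 0).val + 8 * (g 1).val + 64 * (g 2).val + 512 * (g 3).val + 4096 * (g 4).val

/-- position of the digit `d` in `a` -/
def fd (a d : ℕ) : ℕ :=
  if a % 8 = d then 0 else if a / 8 % 8 = d then 1 else if a / 64 % 8 = d then 2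
  else if a / 512 % 8 = d then 3 else 4

/-- code of `g⁻¹ * h` from the codes of `g` and `h` -/
def cm (a b : ℕ) : ℕ :=
  fd a (b % 8) + 8 * fd a (b / 8 % 8) + 64 * fd a (b / 64 % 8) + 512 * fd a (b / 512 % 8)
    + 4096 * fd a (b / 4096 % 8)

theorem dg0 (g : Perm (Fin 5)) : cd g % 8 = (g 0).val := by
  unfold cd
  have h0 := (g 0).isLt
  omega

theorem dg1 (g : Perm (Fin 5)) : cd g / 8 % 8 = (g 1).val := by
  unfold cd
  have h0 := (g 0).isLt
  have h1 := (g 1).isLt
  omega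

theorem dg2 (g : Perm (Fin 5)) : cd g / 64 % 8 = (g 2).val := by
  unfold cd
  have h0 := (g 0).isLt
  have h1 := (g 1).isLt
  have h2 := (g 2).isLt
  omega

theorem dg3 (g : Perm (Fin 5)) : cd g / 512 % 8 = (g 3).val := by
  unfold cd
  have h0 := (g 0).isLt
  have h1 := (g 1).isLt
  have h2 := (g 2).isLt
  have h3 := (g 3).isLt
  omega

theorem dg4 (g : Perm (Fin 5)) : cd g / 4096 % 8 = (g 4).val := by
  unfold cd
  have h0 := (g 0).isLt
  have h1 := (g 1).isLt
  have h2 := (g 2).isLt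
  have h3 := (g 3).isLt
  have h4 := (g 4).isLt
  omega

theorem fd_eq (g : Perm (Fin 5)) (y : Fin 5) : fd (cd g) (g y).val = y.val := by
  have hinj : ∀ a b : Fin 5, (g a).val = (g b).val → a = b := fun a b h =>
    g.injective (Fin.ext h)
  unfold fd
  rw [dg0, dg1, dg2, dg3]
  split_ifs with h0 h1 h2 h3
  · rw [← hinj _ _ h0]; rfl
  · rw [← hinj _ _ h1]; rfl
  · rw [← hinj _ _ h2]; rfl
  · rw [← hinj _ _ h3]; rfl
  · have h4 : y ≠ 0 := fun h => h0 (by rw [h])
    have h5 : y ≠ 1 := fun h => h1 (by rw [h])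
    have h6 : y ≠ 2 := fun h => h2 (by rw [h])
    have h7 : y ≠ 3 := fun h => h3 (by rw [h])
    revert h4 h5 h6 h7
    clear h0 h1 h2 h3 hinj
    revert y
    decide

theorem cm_eq (g h : Perm (Fin 5)) : cm (cd g) (cd h) = cd (g⁻¹ * h) := by
  have h0 : ∀ x : Fin 5, fd (cd g) (h x).val = ((g⁻¹ * h) x).val := by
    intro x
    have h1 := fd_eq g ((g⁻¹ * h) x)
    have h2 : g ((g⁻¹ * h) x) = h x := by
      rw [← Perm.mul_apply, mul_inv_cancel_left]
    rw [h2] at h1
    exact h1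
  unfold cm
  rw [dg0, dg1, dg2, dg3, dg4, h0, h0, h0, h0, h0]
  rfl

theorem cd_inj : Function.Injective cd := by
  intro g h hgh
  apply Equiv.ext
  intro x
  have h0 := dg0 g
  have h1 := dg1 g
  have h2 := dg2 g
  have h3 := dg3 g
  have h4 := dg4 g
  rw [hgh] at h0 h1 h2 h3 h4
  rw [dg0] at h0
  rw [dg1] at h1
  rw [dg2] at h2
  rw [dg3] at h3
  rw [dg4] at h4
  fin_cases x
  · exact Fin.ext h0.symm
  · exact Fin.ext h1.symm
  · exact Fin.ext h2.symm
  · exact Fin.ext h3.symm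
  · exact Fin.ext h4.symm

/-- codes of a formal sum -/
def cl (L : List (Perm (Fin 5) × ℤ)) : List (ℕ × ℤ) := L.map fun a => (cd a.1, a.2)

/-- `A^* B` for codes -/
def prc (A B : List (ℕ × ℤ)) : List (ℕ × ℤ) :=
  A.flatMap fun a => B.map fun b => (cm a.1 b.1, a.2 * b.2)

/-- scalar multiple -/
def scc (c : ℤ) (A : List (ℕ × ℤ)) : List (ℕ × ℤ) := A.map fun a => (a.1, c * a.2)

theorem cl_append (A B : List (Perm (Fin 5) × ℤ)) : cl (A ++ B) = cl A ++ cl B := by
  unfold cl
  rw [List.map_append]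

theorem cl_sc (c : ℤ) (A : List (Perm (Fin 5) × ℤ)) : cl (sc c A) = scc c (cl A) := by
  unfold cl sc scc
  rw [List.map_map, List.map_map]
  rfl

theorem cl_pr (A B : List (Perm (Fin 5) × ℤ)) : cl (pr A B) = prc (cl A) (cl B) := by
  unfold cl pr prc
  rw [List.map_flatMap, List.flatMap_map]
  congr 1
  funext a
  rw [List.map_map, List.map_map]
  refine List.map_congr_left fun b _ => ?_
  simp only [Function.comp_apply, cm_eq]

variable {E : Type} [NormedAddCommGroup E] [InnerProductSpace ℂ E]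

theorem ev_zero5 (r : Perm (Fin 5) →* (E →ₗ[ℂ] E)) (f : E)
    (L : List (Perm (Fin 5) × ℤ))
    (h : (canon (cl L)).all (fun x => x.2 == 0) = true) : ev r f L = 0 := by
  have h1 := evc_zero (Function.extend cd (ph r f) 0) _ h
  rw [← h1]
  unfold ev evc cl
  rw [List.map_map]
  congr 1
  refine List.map_congr_left fun a _ => ?_
  simp only [Function.comp_apply]
  rw [cd_inj.extend_apply]

theorem pos_of5 (r : Perm (Fin 5) →* (E →ₗ[ℂ] E)) (hr : ∀ s x, ‖r s x‖ = ‖x‖) (f : E)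
    (c : ℕ) (hc : 0 < c) (A L : List (Perm (Fin 5) × ℤ)) (Ac Bc Lc : List (ℕ × ℤ))
    (hA : cl A = Ac) (hB : cl (iv A) = Bc) (hL : cl L = Lc)
    (h : (canon (scc c (Ac ++ Bc) ++ scc (-2) (prc Lc Lc))).all (fun x => x.2 == 0) = true) :
    0 ≤ ev r f A := by
  have h0 : (canon (cl (sc c (A ++ iv A) ++ sc (-2) (pr L L)))).all (fun x => x.2 == 0)
      = true := by
    rw [cl_append, cl_sc, cl_append, cl_sc, cl_pr, hA, hB, hL]
    exact h
  have h1 := ev_zero5 r f _ h0
  rw [ev_append, ev_sc, ev_sc, ev_append, ev_iv r hr] at h1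
  have h2 := ev_sq r hr f L
  push_cast at h1
  have h3 : (0 : ℝ) < c := by exact_mod_cast hc
  nlinarith

end Pool.Agent.GRA.S.H99
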