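import Mathlib

/-!
Positive definite functions on a group: formal sums `List (G × ℤ)`, their values, and a canonical
form that is checked by the kernel.
-/

set_option autoImplicit false

namespace Pool.Agent.GRA.S.H99

section basic
variable {G : Type} [Group G] {E : Type} [NormedAddCommGroup E] [InnerProductSpace ℂ E]

/-- the positive definite function of the vector `f` -/
noncomputable def ph (r : G →* (E →ₗ[ℂ] E)) (f : E) (g : G) : ℝ := (inner ℂ f (r g f)).re

theorem inner_map (r : G →* (E →ₗ[ℂ] E)) (hr : ∀ s x, ‖r s x‖ = ‖x‖) (g : G) (x y : E) :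
    inner ℂ (r g x) (r g y) = inner ℂ x y :=
  LinearIsometry.inner_map_map (⟨r g, hr g⟩ : E →ₗᵢ[ℂ] E) x y

theorem inner_ph (r : G →* (E →ₗ[ℂ] E)) (hr : ∀ s x, ‖r s x‖ = ‖x‖) (f : E) (g h : G) :
    (inner ℂ (r g f) (r h f)).re = ph r f (g⁻¹ * h) := by
  have h1 : r h f = r g (r (g⁻¹ * h) f) := by
    rw [← Module.End.mul_apply, ← map_mul, mul_inv_cancel_left]
  rw [h1, inner_map r hr]
  rfl

theorem ph_inv (r : G →* (E →ₗ[ℂ] E)) (hr : ∀ s x, ‖r s x‖ = ‖x‖) (f : E) (g : G) :
    ph r f g⁻¹ = ph r f g := by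
  have h1 := inner_ph r hr f g 1
  rw [mul_one] at h1
  rw [← h1, map_one, Module.End.one_apply, ← inner_conj_symm]
  rw [Complex.conj_re]
  rfl

theorem ph_one (r : G →* (E →ₗ[ℂ] E)) (f : E) : ph r f 1 = ‖f‖ ^ 2 := by
  unfold ph
  rw [map_one, Module.End.one_apply, inner_self_eq_norm_sq_to_K]
  norm_cast

/-- vector of a formal sum -/
noncomputable def vec (r : G →* (E →ₗ[ℂ] E)) (f : E) (L : List (G × ℤ)) : E :=
  (L.map fun a => ((a.2 : ℝ) : ℂ) • r a.1 f).sum

/-- value of a formal sum -/
noncomputable def ev (r : G →* (E →ₗ[ℂ] E)) (f : E) (L : List (G × ℤ)) : ℝ :=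
  (L.map fun a => (a.2 : ℝ) * ph r f a.1).sum

/-- `A^* B` -/
def pr (A B : List (G × ℤ)) : List (G × ℤ) :=
  A.flatMap fun a => B.map fun b => (a.1⁻¹ * b.1, a.2 * b.2)

/-- scalar multiple -/
def sc (c : ℤ) (A : List (G × ℤ)) : List (G × ℤ) := A.map fun a => (a.1, c * a.2)

/-- adjoint -/
def iv (A : List (G × ℤ)) : List (G × ℤ) := A.map fun a => (a.1⁻¹, a.2)

theorem ev_append (r : G →* (E →ₗ[ℂ] E)) (f : E) (A B : List (G × ℤ)) :
    ev r f (A ++ B) = ev r f A + ev r f B := by
  unfold ev
  rw [List.map_append, List.sum_append]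

theorem ev_sc (r : G →* (E →ₗ[ℂ] E)) (f : E) (c : ℤ) (A : List (G × ℤ)) :
    ev r f (sc c A) = c * ev r f A := by
  unfold ev sc
  induction A with
  | nil => simp
  | cons a t ih =>
    simp only [List.map_cons, List.sum_cons] at ih ⊢
    rw [ih]
    push_cast
    ring

theorem ev_iv (r : G →* (E →ₗ[ℂ] E)) (hr : ∀ s x, ‖r s x‖ = ‖x‖) (f : E) (A : List (G × ℤ)) :
    ev r f (iv A) = ev r f A := by
  unfold ev iv
  induction A with
  | nil => simp
  | cons a t ih =>
    simp only [List.map_cons, List.sum_cons] at ih ⊢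
    rw [ih, ph_inv r hr]

theorem vec_cons (r : G →* (E →ₗ[ℂ] E)) (f : E) (a : G × ℤ) (A : List (G × ℤ)) :
    vec r f (a :: A) = ((a.2 : ℝ) : ℂ) • r a.1 f + vec r f A := by
  unfold vec
  rw [List.map_cons, List.sum_cons]

theorem vec_nil (r : G →* (E →ₗ[ℂ] E)) (f : E) : vec r f [] = 0 := rfl

theorem ev_pr (r : G →* (E →ₗ[ℂ] E)) (hr : ∀ s x, ‖r s x‖ = ‖x‖) (f : E) (A B : List (G × ℤ)) :
    (inner ℂ (vec r f A) (vec r f B)).re = ev r f (pr A B) := by
  induction A with
  | nil =>
    rw [vec_nil, inner_zero_left]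
    rfl
  | cons a A ih =>
    have h1 : pr (a :: A) B = (B.map fun b => (a.1⁻¹ * b.1, a.2 * b.2)) ++ pr A B := by
      unfold pr
      rw [List.flatMap_cons]
    rw [h1, ev_append, ← ih, vec_cons, inner_add_left, Complex.add_re]
    congr 1
    clear ih h1
    induction B with
    | nil =>
      rw [vec_nil, inner_zero_right]
      rfl
    | cons b B ihB =>
      rw [vec_cons, inner_add_right, Complex.add_re, ihB, inner_smul_left, inner_smul_right,
        Complex.conj_ofReal, ← mul_assoc, ← Complex.ofReal_mul, Complex.re_ofReal_mul,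
        inner_ph r hr]
      unfold ev
      rw [List.map_cons, List.map_cons, List.sum_cons]
      push_cast
      rfl

theorem ev_sq (r : G →* (E →ₗ[ℂ] E)) (hr : ∀ s x, ‖r s x‖ = ‖x‖) (f : E) (A : List (G × ℤ)) :
    0 ≤ ev r f (pr A A) := by
  rw [← ev_pr r hr f A A]
  exact inner_self_nonneg (𝕜 := ℂ)

end basic

section canon
variable {K : Type} [DecidableEq K]

/-- add a term -/
def addIn (c : K) (a : ℤ) : List (K × ℤ) → List (K × ℤ)
  | [] => [(c, a)]
  | x :: t => if c = x.1 then (x.1, x.2 + a) :: t else x :: addIn c a t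

/-- collect equal terms -/
def canon : List (K × ℤ) → List (K × ℤ)
  | [] => []
  | x :: t => addIn x.1 x.2 (canon t)

/-- value of a formal sum of codes -/
def evc (q : K → ℝ) (L : List (K × ℤ)) : ℝ := (L.map fun a => (a.2 : ℝ) * q a.1).sum

theorem evc_addIn (q : K → ℝ) (c : K) (a : ℤ) (L : List (K × ℤ)) :
    evc q (addIn c a L) = a * q c + evc q L := by
  induction L with
  | nil => simp [addIn, evc]
  | cons x t ih =>
    unfold addIn
    split_ifs with h
    · unfold evc
      simp only [List.map_cons, List.sum_cons]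
      rw [h]
      push_cast
      ring
    · unfold evc at ih ⊢
      simp only [List.map_cons, List.sum_cons]
      rw [ih]
      ring

theorem evc_canon (q : K → ℝ) (L : List (K × ℤ)) : evc q (canon L) = evc q L := by
  induction L with
  | nil => rfl
  | cons x t ih =>
    unfold canon
    rw [evc_addIn, ih]
    unfold evc
    simp only [List.map_cons, List.sum_cons]

theorem evc_zero (q : K → ℝ) (L : List (K × ℤ)) (h : (canon L).all (fun x => x.2 == 0) = true) :
    evc q L = 0 := by
  rw [← evc_canon]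
  rw [List.all_eq_true] at h
  unfold evc
  apply List.sum_eq_zero
  intro y hy
  rw [List.mem_map] at hy
  obtain ⟨x, hx, rfl⟩ := hy
  have h1 : x.2 = 0 := by simpa using h x hx
  rw [h1]
  simp

end canon

section perm
variable {N : ℕ} {E : Type} [NormedAddCommGroup E] [InnerProductSpace ℂ E]

/-- code of a permutation -/
def code (g : Equiv.Perm (Fin N)) : List (Fin N) := (List.finRange N).map g

theorem code_inj : Function.Injective (code : Equiv.Perm (Fin N) → List (Fin N)) := by
  intro g h hgh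
  unfold code at hgh
  apply Equiv.ext
  intro x
  exact (List.map_inj_left.mp hgh) x (List.mem_finRange x)

theorem ev_zero (r : Equiv.Perm (Fin N) →* (E →ₗ[ℂ] E)) (f : E)
    (L : List (Equiv.Perm (Fin N) × ℤ))
    (h : (canon (L.map fun a => (code a.1, a.2))).all (fun x => x.2 == 0) = true) :
    ev r f L = 0 := by
  have h1 := evc_zero (Function.extend code (ph r f) 0) _ h
  rw [← h1]
  unfold ev evc
  rw [List.map_map]
  congr 1
  refine List.map_congr_left fun a _ => ?_
  simp only [Function.comp_apply]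
  rw [code_inj.extend_apply]

end perm

end Pool.Agent.GRA.S.H99
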